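import Pool.Agent.MWGI.StmtsC

/-!
# Block MWGI, row VEC: from words `W` to products of powers
-/

set_option autoImplicit false

namespace Pool.Agent.MWGI.H66

open Pool.Agent.Helper14_MV Pool.Agent.Helper2_MV Pool.Agent.MVO Pool.Agent.MWL Pool.Agent.MWS
  Pool.Agent.MWH

theorem GG_cons (x : ℕ) (S : List ℕ) (g : ℕ → ℕ) :
    GG (x :: S) g = List.replicate (g x) x ++ GG S g := rfl

theorem mem_GG {S : List ℕ} {g : ℕ → ℕ} {z : ℕ} (h : z ∈ GG S g) : z ∈ S := by
  unfold GG at h
  obtain ⟨x, hx, hz⟩ := List.mem_flatMap.1 h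
  rw [(List.mem_replicate.1 hz).2]
  exact hx

theorem cnt_GG (g : ℕ → ℕ) (z : ℕ) : ∀ S : List ℕ, (GG S g).count z = g z * S.count z := by
  intro S
  induction S with
  | nil => simp [GG]
  | cons x S ih =>
    rw [GG_cons, List.count_append, ih, List.count_cons, List.count_replicate]
    by_cases h : x = z
    · subst h
      simp
      ring
    · have h' : ¬ (x == z) = true := by simpa using h
      rw [if_neg h', if_neg h']
      simp

theorem GG_zero : ∀ S : List ℕ, GG S (fun _ => 0) = [] := by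
  intro S
  induction S with
  | nil => rfl
  | cons x S ih => rw [GG_cons, ih]; rfl

theorem cnt_rp (m z : ℕ) (W : List ℕ) : (rp m W).count z = m * W.count z := by
  unfold rp
  induction m with
  | zero => simp
  | succ m ih => rw [List.replicate_succ, List.flatten_cons, List.count_append, ih]; ring

theorem perm_rp (S : List ℕ) (e : ℕ → ℕ) (m : ℕ) :
    (GG S (fun x => m * e x)).Perm (rp m (GG S e)) := by
  rw [List.perm_iff_count]
  intro z
  rw [cnt_GG, cnt_rp, cnt_GG]
  ring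

theorem mem_rp {m z : ℕ} {W : List ℕ} (h : z ∈ rp m W) : z ∈ W := by
  have h1 : 0 < (rp m W).count z := List.count_pos_iff.2 h
  rw [cnt_rp] at h1
  exact List.count_pos_iff.1 (Nat.pos_of_mul_pos_left h1)

theorem okt {k : ℕ} {H pre suf l l' : List ℕ} (h : Ok1 k H pre suf l)
    (h1 : ∀ z, z ∉ H → l'.count z = l.count z) (h2 : ∀ x ∈ H, 2 ≤ l'.count x) :
    Ok1 k H pre suf l' := by
  refine ⟨h.nd, h2, fun a ha haH => ?_, h.muOf h2 h1⟩
  have e := h1 a haH
  have h3 : 0 < l'.count a := List.count_pos_iff.2 ha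
  rw [e] at h3
  obtain ⟨h4, h5⟩ := h.lt a (List.count_pos_iff.1 h3) haH
  exact ⟨e.trans h4, h5⟩

theorem md0 (n e : ℕ) : 0 ≡ n * e [MOD n] :=
  ((Nat.modEq_zero_iff_dvd.2 (Dvd.intro _ rfl))).symm

theorem md1 {n c e h : ℕ} (H : h ≡ e * c [MOD n]) : h ≡ (n + c) * e [MOD n] := by
  have e1 : (n + c) * e = e * c + n * e := by ring
  rw [e1]
  refine H.trans ?_
  unfold Nat.ModEq
  rw [Nat.add_mul_mod_self_left]

theorem md2 {n c e h : ℕ} (H : h ≡ e * c [MOD n]) :
    (n - 1) * h ≡ (n + (n - 1) * c) * e [MOD n] := by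
  have e1 : (n + (n - 1) * c) * e = (n - 1) * (e * c) + n * e := by ring
  rw [e1]
  refine (H.mul_left (n - 1)).trans ?_
  unfold Nat.ModEq
  rw [Nat.add_mul_mod_self_left]

/-- from products of powers to a power of the word `GG S e` and back -/
theorem cmp (hPRM : PrmStmt) (hEXS : ExsStmt) {n k : ℕ} {η : FIC} (hB : BI n (RR η))
    {H pre suf S A D : List ℕ} {g e : ℕ → ℕ} {m : ℕ} (hS : ∀ x ∈ S, x ∈ H ∧ x ∈ A ∧ x ∈ D)
    (hg : ∀ x ∈ S, g x ≡ m * e x [MOD n]) :
    (Ok1 k H pre suf (A ++ (GG S g ++ D)) → Ok1 k H pre suf (A ++ (rp m (GG S e) ++ D)) ∧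
      RR η (Wd pre suf (A ++ (GG S g ++ D))) (Wd pre suf (A ++ (rp m (GG S e) ++ D)))) ∧
    (Ok1 k H pre suf (A ++ (rp m (GG S e) ++ D)) → Ok1 k H pre suf (A ++ (GG S g ++ D)) ∧
      RR η (Wd pre suf (A ++ (rp m (GG S e) ++ D))) (Wd pre suf (A ++ (GG S g ++ D)))) := by
  constructor
  · intro ok
    obtain ⟨ok1, r1⟩ := (hEXS n η hB H pre suf S A D g (fun x => m * e x) hS).1 ok hg
    obtain ⟨ok2, r2⟩ := hPRM n η hB H pre suf A _ _ D ok1 (fun z hz => (hS z (mem_GG hz)).1)
      (perm_rp S e m)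
    exact ⟨ok2, η.trans r1 r2⟩
  · intro ok
    obtain ⟨ok1, r1⟩ := hPRM n η hB H pre suf A _ _ D ok
      (fun z hz => (hS z (mem_GG (mem_rp hz))).1) (perm_rp S e m).symm
    obtain ⟨ok2, r2⟩ := (hEXS n η hB H pre suf S A D (fun x => m * e x) g hS).1 ok1
      (fun x hx => (hg x hx).symm)
    exact ⟨ok2, η.trans r1 r2⟩

theorem vec (hPRM : PrmStmt) (hEXS : ExsStmt) : VecStmt := by
  intro n k η hB H pre suf a b c haH hbH hE S h hnd hh A D hS ok
  have he : ∃ e : ℕ → ℕ, ∀ x ∈ S, h x ≡ e x * c [MOD n] := by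
    classical
    refine ⟨fun x => if hx : x ∈ S then (hh x hx).choose else 0, fun x hx => ?_⟩
    simp only [dif_pos hx]
    exact (hh x hx).choose_spec
  obtain ⟨e, he⟩ := he
  -- insertion in front of `a`
  obtain ⟨ok1, r1⟩ := (cmp hPRM hEXS hB (H := H) (pre := pre) (suf := suf) (S := S) (A := A)
    (D := a :: (GG S h ++ b :: D)) (g := fun _ => 0) (e := e) (m := n)
    (fun x hx => ⟨(hS x hx).1, (hS x hx).2.1, by simp [(hS x hx).2.2]⟩)
    (fun x _ => md0 n (e x))).1 (by rw [GG_zero]; exact ok)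
  rw [GG_zero] at r1
  -- the middle part
  obtain ⟨ok2, r2⟩ := (cmp hPRM hEXS hB (H := H) (pre := pre) (suf := suf) (S := S)
    (A := A ++ (rp n (GG S e) ++ [a])) (D := b :: D) (g := h) (e := e) (m := n + c)
    (fun x hx => ⟨(hS x hx).1, by simp [(hS x hx).2.1], by simp [(hS x hx).2.2]⟩)
    (fun x hx => md1 (he x hx))).1 (by simpa using ok1)
  -- insertion behind `b`
  obtain ⟨ok3, r3⟩ := (cmp hPRM hEXS hB (H := H) (pre := pre) (suf := suf) (S := S)
    (A := A ++ (rp n (GG S e) ++ a :: (rp (n + c) (GG S e) ++ [b]))) (D := D)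
    (g := fun _ => 0) (e := e) (m := n)
    (fun x hx => ⟨(hS x hx).1, by simp [(hS x hx).2.1], (hS x hx).2.2⟩)
    (fun x _ => md0 n (e x))).1 (by rw [GG_zero]; simpa using ok2)
  rw [GG_zero] at r3
  have r4 := hE A D (GG S e) (fun z hz => hS z (mem_GG hz)) (by simpa using ok3)
  -- the word behind the exchange
  have ok4 : Ok1 k H pre suf (A ++ (rp (n + c) (GG S e) ++ b :: (rp (n + (n - 1) * c) (GG S e) ++
      a :: (rp (n + c) (GG S e) ++ D)))) := by
    refine okt ok ?_ ?_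
    · intro z hz
      have hzS : z ∉ S := fun h => hz (hS z h).1
      have h0 : S.count z = 0 := List.count_eq_zero_of_not_mem hzS
      simp only [List.count_append, List.count_cons, cnt_rp, cnt_GG, h0]
      omega
    · intro x hx
      by_cases hxS : x ∈ S
      · have h1 : 0 < A.count x := List.count_pos_iff.2 (hS x hxS).2.1
        have h2 : 0 < D.count x := List.count_pos_iff.2 (hS x hxS).2.2
        simp only [List.count_append, List.count_cons]
        omega
      · have h0 : S.count x = 0 := List.count_eq_zero_of_not_mem hxS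
        have h1 := ok.hv x hx
        simp only [List.count_append, List.count_cons, cnt_rp, cnt_GG, h0] at h1 ⊢
        omega
  obtain ⟨ok5, r5⟩ := (cmp hPRM hEXS hB (H := H) (pre := pre) (suf := suf) (S := S) (A := A)
    (D := b :: (rp (n + (n - 1) * c) (GG S e) ++ a :: (rp (n + c) (GG S e) ++ D)))
    (g := h) (e := e) (m := n + c)
    (fun x hx => ⟨(hS x hx).1, (hS x hx).2.1, by simp [(hS x hx).2.2]⟩)
    (fun x hx => md1 (he x hx))).2 ok4
  obtain ⟨ok6, r6⟩ := (cmp hPRM hEXS hB (H := H) (pre := pre) (suf := suf) (S := S)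
    (A := A ++ (GG S h ++ [b])) (D := a :: (rp (n + c) (GG S e) ++ D))
    (g := fun x => (n - 1) * h x) (e := e) (m := n + (n - 1) * c)
    (fun x hx => ⟨(hS x hx).1, by simp [(hS x hx).2.1], by simp [(hS x hx).2.2]⟩)
    (fun x hx => md2 (he x hx))).2 (by simpa using ok5)
  obtain ⟨ok7, r7⟩ := (cmp hPRM hEXS hB (H := H) (pre := pre) (suf := suf) (S := S)
    (A := A ++ (GG S h ++ b :: (GG S (fun x => (n - 1) * h x) ++ [a]))) (D := D)
    (g := h) (e := e) (m := n + c)
    (fun x hx => ⟨(hS x hx).1, by simp [(hS x hx).2.1], (hS x hx).2.2⟩)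
    (fun x hx => md1 (he x hx))).2 (by simpa using ok6)
  have s1 : RR η (Wd pre suf (A ++ a :: (GG S h ++ b :: D)))
      (Wd pre suf (A ++ (rp n (GG S e) ++ a :: (GG S h ++ b :: D)))) := by simpa using r1
  have s2 : RR η (Wd pre suf (A ++ (rp n (GG S e) ++ a :: (GG S h ++ b :: D))))
      (Wd pre suf (A ++ (rp n (GG S e) ++ a :: (rp (n + c) (GG S e) ++ b :: D)))) := by
    simpa using r2
  have s3 : RR η (Wd pre suf (A ++ (rp n (GG S e) ++ a :: (rp (n + c) (GG S e) ++ b :: D))))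
      (Wd pre suf (A ++ (rp n (GG S e) ++ a :: (rp (n + c) (GG S e) ++
        b :: (rp n (GG S e) ++ D))))) := by
    simpa using r3
  have s6 : RR η (Wd pre suf (A ++ (GG S h ++ b :: (rp (n + (n - 1) * c) (GG S e) ++
        a :: (rp (n + c) (GG S e) ++ D)))))
      (Wd pre suf (A ++ (GG S h ++ b :: (GG S (fun x => (n - 1) * h x) ++
        a :: (rp (n + c) (GG S e) ++ D))))) := by
    simpa using r6
  have s7 : RR η (Wd pre suf (A ++ (GG S h ++ b :: (GG S (fun x => (n - 1) * h x) ++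
        a :: (rp (n + c) (GG S e) ++ D)))))
      (Wd pre suf (A ++ (GG S h ++ b :: (GG S (fun x => (n - 1) * h x) ++
        a :: (GG S h ++ D))))) := by
    simpa using r7
  exact η.trans s1 (η.trans s2 (η.trans s3 (η.trans r4 (η.trans r5 (η.trans s6 s7)))))

end Pool.Agent.MWGI.H66
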